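import Pool.Agent.H947R2.TP.Stubs

/-!
# B1: shifting the classes in a cube tiling
-/

set_option autoImplicit false

namespace H947TP

variable {D : ℕ}

/-- the cube `v + [0,1)^D` meets the line through `x` in direction `k` -/
def B1Col (k : Fin D) (x v : Fin D → ℝ) : Prop := ∀ l, l ≠ k → v l ≤ x l ∧ x l < v l + 1

theorem B1_uniq {L : AddSubgroup (Fin D → ℝ)} (hL : IsTile L) {k : Fin D} {x u v : Fin D → ℝ}
    {t : ℝ} (hu : u ∈ L) (hv : v ∈ L) (cu : B1Col k x u) (cv : B1Col k x v)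
    (tu : u k ≤ t ∧ t < u k + 1) (tv : v k ≤ t ∧ t < v k + 1) : u = v := by
  obtain ⟨w, _, hw⟩ := hL (Function.update x k t)
  have key : ∀ a : Fin D → ℝ, a ∈ L → B1Col k x a → (a k ≤ t ∧ t < a k + 1) → a = w := by
    intro a ha ca ta
    refine hw a ⟨ha, fun i => ?_⟩
    by_cases hi : i = k
    · subst hi
      rw [Function.update_self]
      exact ta
    · rw [Function.update_of_ne hi]
      exact ca i hi
  rw [key u hu cu tu, key v hv cv tv]

theorem B1_exists {L : AddSubgroup (Fin D → ℝ)} (hL : IsTile L) (k : Fin D) (x : Fin D → ℝ)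
    (t : ℝ) : ∃ v ∈ L, B1Col k x v ∧ v k ≤ t ∧ t < v k + 1 := by
  obtain ⟨w, ⟨hwL, hw⟩, _⟩ := hL (Function.update x k t)
  refine ⟨w, hwL, fun l hl => ?_, ?_⟩
  · have := hw l
    rwa [Function.update_of_ne hl] at this
  · have := hw k
    rwa [Function.update_self] at this

theorem B1_step {L : AddSubgroup (Fin D → ℝ)} (hL : IsTile L) {k : Fin D} {x w : Fin D → ℝ}
    (hw : w ∈ L) (cw : B1Col k x w) : ∃ w' ∈ L, B1Col k x w' ∧ w' k = w k + 1 := by
  obtain ⟨w', hw', cw', h1, h2⟩ := B1_exists hL k x (w k + 1)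
  refine ⟨w', hw', cw', ?_⟩
  by_contra hne
  have h3 : w' k < w k + 1 := lt_of_le_of_ne h1 hne
  have h4 : w = w' := B1_uniq hL hw hw' cw cw' (t := w' k) ⟨by linarith, h3⟩ ⟨le_rfl, by linarith⟩
  rw [h4] at h2
  linarith

theorem B1_iter {L : AddSubgroup (Fin D → ℝ)} (hL : IsTile L) {k : Fin D} {x w : Fin D → ℝ}
    (hw : w ∈ L) (cw : B1Col k x w) (m : ℕ) : ∃ w' ∈ L, B1Col k x w' ∧ w' k = w k + m := by
  induction m with
  | zero => exact ⟨w, hw, cw, by simp⟩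
  | succ m ih =>
    obtain ⟨w', hw', cw', h⟩ := ih
    obtain ⟨w2, h2, c2, h3⟩ := B1_step hL hw' cw'
    exact ⟨w2, h2, c2, by rw [h3, h]; push_cast; ring⟩

theorem B1_key' {L : AddSubgroup (Fin D → ℝ)} (hL : IsTile L) {k : Fin D} {x u v : Fin D → ℝ}
    (hu : u ∈ L) (hv : v ∈ L) (cu : B1Col k x u) (cv : B1Col k x v) (hle : u k ≤ v k) :
    ∃ m : ℤ, v k = u k + m := by
  obtain ⟨w, hw, cw, h⟩ := B1_iter hL hu cu ⌊v k - u k⌋₊
  have h0 : 0 ≤ v k - u k := by linarith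
  have h1 := Nat.floor_le h0
  have h2 := Nat.lt_floor_add_one (v k - u k)
  have h3 : w = v := B1_uniq hL hw hv cw cv (t := v k) ⟨by rw [h]; linarith, by rw [h]; linarith⟩
    ⟨le_rfl, by linarith⟩
  refine ⟨(⌊v k - u k⌋₊ : ℤ), ?_⟩
  rw [h3] at h
  rw [Int.cast_natCast]
  exact h

theorem B1_key {L : AddSubgroup (Fin D → ℝ)} (hL : IsTile L) {k : Fin D} {x u v : Fin D → ℝ}
    (hu : u ∈ L) (hv : v ∈ L) (cu : B1Col k x u) (cv : B1Col k x v) :
    ∃ m : ℤ, v k = u k + m := by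
  rcases le_total (u k) (v k) with h | h
  · exact B1_key' hL hu hv cu cv h
  · obtain ⟨m, hm⟩ := B1_key' hL hv hu cv cu h
    exact ⟨-m, by rw [hm]; push_cast; ring⟩

theorem B1_f {f : ℝ →+ ℝ} (hf : f 1 = 0) (a : ℝ) (m : ℤ) : f (a + m) = f a := by
  have : f (m : ℝ) = 0 := by
    rw [← mul_one (m : ℝ), ← zsmul_eq_mul, map_zsmul, hf, smul_zero]
  rw [map_add, this, add_zero]

theorem B1_shift_self (k : Fin D) (f : ℝ →+ ℝ) (v : Fin D → ℝ) :
    shiftMap k f v k = v k + f (v k) := by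
  show (v + (Pi.single k (f (v k)) : Fin D → ℝ)) k = _
  rw [Pi.add_apply, Pi.single_eq_same]

theorem B1_shift_ne {k l : Fin D} (h : l ≠ k) (f : ℝ →+ ℝ) (v : Fin D → ℝ) :
    shiftMap k f v l = v l := by
  show (v + (Pi.single k (f (v k)) : Fin D → ℝ)) l = _
  rw [Pi.add_apply, Pi.single_eq_of_ne h, add_zero]

theorem B1 : St_B1 := by
  intro D L k f hf hL x
  obtain ⟨v, hv, cv, h1, h2⟩ := B1_exists hL k x (x k)
  obtain ⟨w, hw, cw, h3, h4⟩ := B1_exists hL k x (x k - f (v k))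
  obtain ⟨m, hm⟩ := B1_key hL hv hw cv cw
  have hfw : f (w k) = f (v k) := by rw [hm, B1_f hf]
  refine ⟨shiftMap k f w, ⟨AddSubgroup.mem_map_of_mem _ hw, fun i => ?_⟩, ?_⟩
  · by_cases hi : i = k
    · subst hi
      rw [B1_shift_self, hfw]
      exact ⟨by linarith, by linarith⟩
    · rw [B1_shift_ne hi]
      exact cw i hi
  · rintro y ⟨hy, hyx⟩
    obtain ⟨u, hu, rfl⟩ := AddSubgroup.mem_map.1 hy
    have cu : B1Col k x u := by
      intro l hl
      have := hyx l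
      rwa [B1_shift_ne hl] at this
    obtain ⟨m', hm'⟩ := B1_key hL hw hu cw cu
    have hfu : f (u k) = f (v k) := by rw [hm', B1_f hf, hfw]
    have h5 := hyx k
    rw [B1_shift_self, hfu] at h5
    have : u = w := B1_uniq hL hu hw cu cw (t := x k - f (v k))
      ⟨by linarith [h5.1], by linarith [h5.2]⟩ ⟨h3, h4⟩
    rw [this]

end H947TP
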